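import Pool.Agent.Lib.MP_d237f6_co.DR.Main

set_option autoImplicit false
open Classical

namespace Pool.Agent.Results.MP_d237f6_co.Full

/-- The Dress conjecture: the rank of a closed graph in the generic three dimensional rigidity
matroid equals the clique value. -/
theorem result :
  ∀ (V : Type) [Fintype V] (G : SimpleGraph V) (p : V → Fin 3 → ℝ),
    AlgebraicIndependent ℚ (fun i : V × Fin 3 => p i.1 i.2) →
    (∀ u v : V, u ≠ v → ¬ G.Adj u v →
      Module.finrank ℝ (Submodule.span ℝ {f : V × Fin 3 → ℝ | ∃ a b : V,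
          (G.Adj a b ∨ (a = u ∧ b = v)) ∧
          f = fun x => (if x.1 = a then p a x.2 - p b x.2 else 0)
                        + (if x.1 = b then p b x.2 - p a x.2 else 0)})
        = Module.finrank ℝ (Submodule.span ℝ {f : V × Fin 3 → ℝ | ∃ a b : V,
          G.Adj a b ∧
          f = fun x => (if x.1 = a then p a x.2 - p b x.2 else 0)
                        + (if x.1 = b then p b x.2 - p a x.2 else 0)}) + 1) →
    (Module.finrank ℝ (Submodule.span ℝ {f : V × Fin 3 → ℝ | ∃ a b : V,
          G.Adj a b ∧
          f = fun x => (if x.1 = a then p a x.2 - p b x.2 else 0)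
                        + (if x.1 = b then p b x.2 - p a x.2 else 0)}) : ℤ)
      = (∑ X ∈ Finset.univ.filter (fun X : Finset V => 5 ≤ X.card ∧ G.IsClique (X : Set V) ∧
              (∀ Y : Finset V, G.IsClique (Y : Set V) → X ⊆ Y → Y = X)),
            (3 * (X.card : ℤ) - 6))
        + ((G.edgeFinset.filter (fun e : Sym2 V =>
              (Finset.univ.filter (fun X : Finset V => 5 ≤ X.card ∧ G.IsClique (X : Set V) ∧
                (∀ Y : Finset V, G.IsClique (Y : Set V) → X ⊆ Y → Y = X) ∧
                (∀ w, w ∈ e → w ∈ X))).card = 0)).card : ℤ)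
        - ∑ e ∈ G.edgeFinset,
            (if 2 ≤ (Finset.univ.filter (fun X : Finset V => 5 ≤ X.card ∧ G.IsClique (X : Set V) ∧
                (∀ Y : Finset V, G.IsClique (Y : Set V) → X ⊆ Y → Y = X) ∧
                (∀ w, w ∈ e → w ∈ X))).card
             then ((Finset.univ.filter (fun X : Finset V => 5 ≤ X.card ∧ G.IsClique (X : Set V) ∧
                (∀ Y : Finset V, G.IsClique (Y : Set V) → X ⊆ Y → Y = X) ∧
                (∀ w, w ∈ e → w ∈ X))).card : ℤ) - 1
             else 0) := by
  exact Pool.Agent.Dress.Fin_thm (fun _ _ _ g => Pool.Agent.Dress.main_dim g)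

end Pool.Agent.Results.MP_d237f6_co.Full
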